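import Pool.Agent.Helper73.LF.GoalsB

/-!
# LF-GRID (MP_c307ca_nt): the last step
-/

set_option autoImplicit false

open Finset

namespace Pool.Agent.Helper19.LF

open Pool.Agent.Helper98.Lang Pool.Agent.Helper73.LF

theorem grid : GGrid := by
  intro m x hpos hfin δ hδ
  classical
  set s : ℝ := δ / (m + 1) with hs
  have hs0 : 0 < s := by positivity
  have hms : (m : ℝ) * s < δ := by
    rw [hs]
    have : (m : ℝ) * (δ / (m + 1)) = δ * (m / (m + 1)) := by ring
    rw [this]
    have h1 : (m : ℝ) / (m + 1) < 1 := by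
      rw [div_lt_one (by positivity)]; linarith
    nlinarith
  set K : ℕ := ⌈(1 + δ) / s⌉₊ with hK
  have hKs : 1 + δ ≤ s * K := by
    have h1 : (1 + δ) / s ≤ K := Nat.le_ceil _
    rw [div_le_iff₀ hs0] at h1
    linarith
  have hfpos : ∀ n : ℕ, 1 ≤ n → 0 < ∏ i, nd (n * x i) := fun n hn =>
    Finset.prod_pos fun i _ => hpos n hn i
  have hB : {n : ℕ | 2 ≤ n ∧ ∏ i, nd (n * x i) < (n : ℝ) ^ (-(1 + δ))}.Finite := by
    have hU : (⋃ j ∈ (Fintype.piFinset fun _ : Fin m => Finset.range (K + 1)).filter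
        (fun j => 1 < ∑ i, s * (j i : ℝ)),
        {n : ℕ | 1 ≤ n ∧ ∀ i, nd (n * x i) ≤ (n : ℝ) ^ (-(s * (j i : ℝ)))}).Finite := by
      refine Set.Finite.biUnion (Finset.finite_toSet _) ?_
      intro j hj
      exact hfin (fun i => s * (j i : ℝ)) (Finset.mem_filter.mp (Finset.mem_coe.mp hj)).2
    refine hU.subset ?_
    rintro n ⟨hn2, hn⟩
    have hn1 : (1 : ℝ) ≤ n := by exact_mod_cast (by omega : 1 ≤ n)
    have hn0 : (0 : ℝ) < n := by linarith
    have hlog : 0 < Real.log n := Real.log_pos (by exact_mod_cast (by omega : 1 < n))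
    set b : Fin m → ℝ := fun i => -(Real.log (nd (n * x i)) / Real.log n) with hb
    have hndpos : ∀ i, 0 < nd (n * x i) := fun i => hpos n (by omega) i
    have hb0 : ∀ i, 0 ≤ b i := by
      intro i
      have h1 : nd (n * x i) ≤ 1 := by
        have : nd (n * x i) ≤ 1 / 2 := abs_sub_round _
        linarith
      have h2 : Real.log (nd (n * x i)) ≤ 0 := Real.log_nonpos (hndpos i).le h1
      have h3 : Real.log (nd (n * x i)) / Real.log n ≤ 0 := div_nonpos_of_nonpos_of_nonneg h2 hlog.le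
      simp only [hb]; linarith
    have hbn : ∀ i, nd (n * x i) = (n : ℝ) ^ (-(b i)) := by
      intro i
      rw [Real.rpow_def_of_pos hn0]
      simp only [hb, neg_neg]
      rw [mul_div_cancel₀ _ hlog.ne', Real.exp_log (hndpos i)]
    have hsum : 1 + δ < ∑ i, b i := by
      have h1 : Real.log (∏ i, nd (n * x i)) < Real.log ((n : ℝ) ^ (-(1 + δ))) :=
        Real.log_lt_log (hfpos n (by omega)) hn
      rw [Real.log_rpow hn0, Real.log_prod (fun i _ => (hndpos i).ne')] at h1
      have h2 : ∑ i, Real.log (nd (n * x i)) = -(Real.log n) * ∑ i, b i := by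
        rw [Finset.mul_sum]
        refine Finset.sum_congr rfl fun i _ => ?_
        simp only [hb]
        field_simp
      rw [h2] at h1
      nlinarith
    set j : Fin m → ℕ := fun i => min ⌊b i / s⌋₊ K with hj
    have hjb : ∀ i, s * (j i : ℝ) ≤ b i := by
      intro i
      have h1 : (j i : ℝ) ≤ b i / s := by
        have h2 : (j i : ℝ) ≤ (⌊b i / s⌋₊ : ℝ) := by
          exact_mod_cast min_le_left _ _
        exact h2.trans (Nat.floor_le (div_nonneg (hb0 i) hs0.le))
      rw [le_div_iff₀ hs0] at h1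
      linarith
    have hj1 : 1 < ∑ i, s * (j i : ℝ) := by
      by_cases hex : ∃ i, K ≤ ⌊b i / s⌋₊
      · obtain ⟨i, hi⟩ := hex
        have h1 : j i = K := min_eq_right hi
        have h2 : s * (j i : ℝ) ≤ ∑ i, s * (j i : ℝ) :=
          Finset.single_le_sum (f := fun i => s * (j i : ℝ)) (fun i _ => by positivity)
            (Finset.mem_univ i)
        rw [h1] at h2
        linarith
      · push Not at hex
        have h1 : ∀ i, b i - s ≤ s * (j i : ℝ) := by
          intro i
          have h2 : j i = ⌊b i / s⌋₊ := min_eq_left (hex i).le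
          rw [h2]
          have h3 : b i / s < (⌊b i / s⌋₊ : ℝ) + 1 := Nat.lt_floor_add_one _
          rw [div_lt_iff₀ hs0] at h3
          linarith
        have h2 : ∑ i, (b i - s) ≤ ∑ i, s * (j i : ℝ) := Finset.sum_le_sum fun i _ => h1 i
        rw [Finset.sum_sub_distrib, Finset.sum_const, Finset.card_univ, Fintype.card_fin,
          nsmul_eq_mul] at h2
        linarith
    rw [Set.mem_iUnion₂]
    refine ⟨j, ?_, ?_, ?_⟩
    · rw [Finset.mem_filter, Fintype.mem_piFinset]
      refine ⟨fun i => ?_, hj1⟩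
      rw [Finset.mem_range]
      have : j i ≤ K := min_le_right _ _
      omega
    · omega
    · intro i
      rw [hbn i]
      exact Real.rpow_le_rpow_of_exponent_le hn1 (by linarith [hjb i])
  obtain ⟨n0, hn0, hmin⟩ := Finset.exists_min_image (insert 1 hB.toFinset)
    (fun n : ℕ => ∏ i, nd (n * x i)) (Finset.insert_nonempty _ _)
  have hn01 : 1 ≤ n0 := by
    rcases Finset.mem_insert.mp hn0 with h | h
    · omega
    · have := (hB.mem_toFinset.mp h).1
      omega
  refine ⟨min 1 (∏ i, nd (n0 * x i)), lt_min one_pos (hfpos n0 hn01), ?_⟩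
  intro n hn
  have hn1 : (1 : ℝ) ≤ n := by exact_mod_cast hn
  have hpw : (n : ℝ) ^ (-(1 + δ)) ≤ 1 := Real.rpow_le_one_of_one_le_of_nonpos hn1 (by linarith)
  have hpw0 : 0 ≤ (n : ℝ) ^ (-(1 + δ)) := by positivity
  by_cases hmem : n ∈ insert 1 hB.toFinset
  · have h1 := hmin n hmem
    have h2 : min 1 (∏ i, nd (n0 * x i)) ≤ ∏ i, nd (n0 * x i) := min_le_right _ _
    have h3 : 0 < min 1 (∏ i, nd (n0 * x i)) := lt_min one_pos (hfpos n0 hn01)
    calc min 1 (∏ i, nd (n0 * x i)) * (n : ℝ) ^ (-(1 + δ))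
        ≤ min 1 (∏ i, nd (n0 * x i)) * 1 := by gcongr
      _ ≤ ∏ i, nd (n0 * x i) := by rw [mul_one]; exact h2
      _ ≤ _ := h1
  · rw [Finset.mem_insert, hB.mem_toFinset] at hmem
    push Not at hmem
    obtain ⟨hne, hnB⟩ := hmem
    have h1 : ¬ (∏ i, nd (n * x i) < (n : ℝ) ^ (-(1 + δ))) := fun h => hnB ⟨by omega, h⟩
    push Not at h1
    have h2 : min 1 (∏ i, nd (n0 * x i)) ≤ 1 := min_le_left _ _
    calc min 1 (∏ i, nd (n0 * x i)) * (n : ℝ) ^ (-(1 + δ))
        ≤ 1 * (n : ℝ) ^ (-(1 + δ)) := by gcongr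
      _ = (n : ℝ) ^ (-(1 + δ)) := one_mul _
      _ ≤ _ := h1

end Pool.Agent.Helper19.LF
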