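import Pool.Agent.Helper41.LF.GoalsB

/-!
# Packet LF-UPP
-/

set_option autoImplicit false

namespace Pool.Agent.Helper41.LF

open MeasureTheory Finset Polynomial Pool.Agent.Helper92

theorem thm_UPP (hB : S_BADN) (hC : S_CNT) (hP : S_PERT) : S_UPP := by
  classical
  intro d R ε hd hR hε
  obtain ⟨C1, hC1, hcnt⟩ := hC d (by omega)
  obtain ⟨C2, θ, hC2, hθ, hbad⟩ := hB d R (by omega) hR
  have hpsi0 := Avg.psi_pos ε 0
  set R1 : ℝ := R + Avg.psi ε 0 + 1 with hR1def
  have hR1 : 1 ≤ R1 := by linarith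
  have hRR1 : R ≤ R1 := by linarith
  have hdR : (2 : ℝ) ≤ d := by exact_mod_cast hd
  have hd0 : (0 : ℝ) < d := by linarith
  set D0 : ℝ := (d + 1) * d * R1 ^ d with hD0def
  have hR1d : (1 : ℝ) ≤ R1 ^ d := one_le_pow₀ hR1
  have hD0 : 1 ≤ D0 := by
    rw [hD0def]
    exact one_le_mul_of_one_le_of_one_le (by nlinarith) hR1d
  have hD0pos : 0 < D0 := by linarith
  have hR1pos : 0 < R1 := by linarith
  have hZ0 := Avg.Zsum_nonneg ε
  refine ⟨1 + 3 * d * R1 * C1 * D0 * Avg.Zsum ε, by positivity, ?_⟩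
  intro c hc hc1
  set K : ℝ := (c / C2) ^ (1 / θ) with hKdef
  have hK : 0 < K := by positivity
  have hKθ : K ^ θ = c / C2 := by
    rw [hKdef, ← Real.rpow_mul (by positivity), one_div_mul_cancel hθ.ne', Real.rpow_one]
  refine ⟨24 * c * D0 * K, by positivity, ?_⟩
  intro H hH
  have hHR : (1 : ℝ) ≤ H := by exact_mod_cast hH
  have hHpos : (0 : ℝ) < H := by linarith
  set B : ℕ := ⌊K * (H : ℝ) ^ d⌋₊ with hBdef
  obtain ⟨F1, hF1, hF1m⟩ := hbad H B hH
  have hF1c : (F1.card : ℝ) ≤ c * (H : ℝ) ^ (d + 1) := by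
    refine hF1.trans ?_
    have h1 : (B : ℝ) / (H : ℝ) ^ d ≤ K := by
      rw [div_le_iff₀ (by positivity)]
      exact Nat.floor_le (by positivity)
    have h2 : ((B : ℝ) / (H : ℝ) ^ d) ^ θ ≤ c / C2 := by
      rw [← hKθ]
      exact Real.rpow_le_rpow (by positivity) h1 hθ.le
    calc C2 * (H : ℝ) ^ (d + 1) * ((B : ℝ) / (H : ℝ) ^ d) ^ θ
        ≤ C2 * (H : ℝ) ^ (d + 1) * (c / C2) := by gcongr
      _ = c * (H : ℝ) ^ (d + 1) := by field_simp
  set dq : ℕ → ℝ := fun q => c * Avg.psi ε q * (H * D0) with hdq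
  have hdqpos : ∀ q, 0 < dq q := by
    intro q
    have := Avg.psi_pos ε q
    simp only [hdq]
    positivity
  have hlog2 : 0 < Real.log 2 := Real.log_pos (by norm_num)
  set Q : ℕ := ⌈24 * c * D0 * K * (H : ℝ) ^ (d + 1) / (Real.log 2) ^ (1 + ε)⌉₊ with hQdef
  set PS : ℕ → Finset ℤ := fun q => (Icc (-((⌊R1 * q⌋₊ : ℕ) : ℤ)) ((⌊R1 * q⌋₊ : ℕ) : ℤ)).filter
    (fun p => ∀ l : ℕ, 0 < l → l < Field.Kof (dq q) →
      ¬ Near d (1 / (6 * d * H)) ((p : ℝ) / q) l) with hPS
  set F2 : Finset ℝ := (Icc 2 Q).biUnion fun q => (PS q).biUnion fun p =>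
    (smallVal d H ((p : ℝ) / q) (dq q)).biUnion fun a => (Avg.polyR a).roots.toFinset with hF2
  have hF2c : (F2.card : ℝ) ≤ 3 * d * R1 * C1 * D0 * Avg.Zsum ε * c * (H : ℝ) ^ (d + 1) := by
    have hin : ∀ q ∈ Icc 2 Q, ∀ p ∈ PS q,
        ((((smallVal d H ((p : ℝ) / q) (dq q)).biUnion
          fun a => (Avg.polyR a).roots.toFinset).card : ℕ) : ℝ) ≤ d * (C1 * (H : ℝ) ^ d * dq q) := by
      intro q hq p hp
      have h1 := hcnt H ((p : ℝ) / q) (dq q) hH (hdqpos q) (mem_filter.mp hp).2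
      calc ((((smallVal d H ((p : ℝ) / q) (dq q)).biUnion
          fun a => (Avg.polyR a).roots.toFinset).card : ℕ) : ℝ)
          ≤ ((∑ a ∈ smallVal d H ((p : ℝ) / q) (dq q),
              (Avg.polyR a).roots.toFinset.card : ℕ) : ℝ) := Nat.cast_le.mpr card_biUnion_le
        _ ≤ ((∑ a ∈ smallVal d H ((p : ℝ) / q) (dq q), d : ℕ) : ℝ) := by
            apply Nat.cast_le.mpr
            apply Finset.sum_le_sum
            intro a _
            exact (Multiset.toFinset_card_le _).trans
              ((card_roots' _).trans (Avg.polyR_natDegree a))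
        _ = d * ((smallVal d H ((p : ℝ) / q) (dq q)).card : ℝ) := by
            rw [sum_const, smul_eq_mul]; push_cast; ring
        _ ≤ d * (C1 * (H : ℝ) ^ d * dq q) := by gcongr
    have hPc : ∀ q ∈ Icc 2 Q, ((PS q).card : ℝ) ≤ 3 * R1 * q := by
      intro q hq
      rw [mem_Icc] at hq
      have hq1 : (1 : ℝ) ≤ q := by
        have : 1 ≤ q := by omega
        exact_mod_cast this
      have h1 : (PS q).card ≤ 2 * ⌊R1 * q⌋₊ + 1 := by
        refine (card_filter_le _ _).trans ?_
        rw [Int.card_Icc]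
        omega
      have h2 : ((⌊R1 * q⌋₊ : ℕ) : ℝ) ≤ R1 * q := Nat.floor_le (by positivity)
      have h3 : (1 : ℝ) ≤ R1 * q := one_le_mul_of_one_le_of_one_le hR1 hq1
      have h4 : ((PS q).card : ℝ) ≤ 2 * ((⌊R1 * q⌋₊ : ℕ) : ℝ) + 1 := by exact_mod_cast h1
      linarith
    calc (F2.card : ℝ) ≤ ((∑ q ∈ Icc 2 Q, ∑ p ∈ PS q, ((smallVal d H ((p : ℝ) / q) (dq q)).biUnion
          fun a => (Avg.polyR a).roots.toFinset).card : ℕ) : ℝ) := by
          apply Nat.cast_le.mpr
          refine card_biUnion_le.trans ?_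
          apply Finset.sum_le_sum
          intro q _
          exact card_biUnion_le
      _ = ∑ q ∈ Icc 2 Q, ∑ p ∈ PS q, ((((smallVal d H ((p : ℝ) / q) (dq q)).biUnion
          fun a => (Avg.polyR a).roots.toFinset).card : ℕ) : ℝ) := by push_cast; rfl
      _ ≤ ∑ q ∈ Icc 2 Q, ∑ p ∈ PS q, d * (C1 * (H : ℝ) ^ d * dq q) :=
          Finset.sum_le_sum fun q hq => Finset.sum_le_sum fun p hp => hin q hq p hp
      _ ≤ ∑ q ∈ Icc 2 Q, (3 * R1 * q) * (d * (C1 * (H : ℝ) ^ d * dq q)) := by
          apply Finset.sum_le_sum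
          intro q hq
          rw [sum_const, nsmul_eq_mul]
          have := hdqpos q
          exact mul_le_mul_of_nonneg_right (hPc q hq) (by positivity)
      _ = ∑ q ∈ Icc 2 Q, (3 * d * R1 * C1 * D0 * c * (H : ℝ) ^ (d + 1)) *
            ((q : ℝ) * Avg.psi ε q) := by
          apply Finset.sum_congr rfl
          intro q _
          simp only [hdq]
          ring
      _ = (3 * d * R1 * C1 * D0 * c * (H : ℝ) ^ (d + 1)) *
            ∑ q ∈ Icc 2 Q, ((q : ℝ) * Avg.psi ε q) := by rw [Finset.mul_sum]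
      _ ≤ (3 * d * R1 * C1 * D0 * c * (H : ℝ) ^ (d + 1)) * Avg.Zsum ε :=
          mul_le_mul_of_nonneg_left (Avg.sum_le_Zsum hε _) (by positivity)
      _ = _ := by ring
  refine ⟨F1 ∪ F2, ?_, ?_⟩
  · calc (((F1 ∪ F2).card : ℕ) : ℝ) ≤ (F1.card : ℝ) + (F2.card : ℝ) := by
          exact_mod_cast card_union_le _ _
      _ ≤ c * (H : ℝ) ^ (d + 1) + 3 * d * R1 * C1 * D0 * Avg.Zsum ε * c * (H : ℝ) ^ (d + 1) :=
          add_le_add hF1c hF2c
      _ = _ := by ring
  · rintro ξ hξA ⟨p, q, hq2, hqH, hle⟩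
    rw [mem_union]
    by_cases hnear : ∃ b : ℕ, 1 ≤ b ∧ b ≤ B ∧ Near d (1 / (3 * d * H)) ξ b
    · left
      exact hF1m ξ hξA hnear
    · right
      push Not at hnear
      obtain ⟨hξR, hξd, P, hP0, hPd, hPH, hroot⟩ := hξA
      have hqR : (2 : ℝ) ≤ q := by exact_mod_cast hq2
      have hqpos : (0 : ℝ) < q := by linarith
      have hpsi : Avg.psi ε q = 1 / ((q : ℝ) ^ 2 * (Real.log (q : ℝ)) ^ (1 + ε)) := by
        unfold Avg.psi
        rw [max_eq_left hq2]
      have hpsipos := Avg.psi_pos ε q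
      have hlogq : 0 < Real.log (q : ℝ) := Real.log_pos (by linarith)
      set W : ℝ := (q : ℝ) ^ 2 * (Real.log (q : ℝ)) ^ (1 + ε) with hW
      have hWpos : 0 < W := by positivity
      have hle' : |ξ - (p : ℝ) / q| ≤ c * Avg.psi ε q := by
        rw [hpsi]
        refine hle.trans (le_of_eq ?_)
        ring
      have hpsile : Avg.psi ε q ≤ Avg.psi ε 0 :=
        Avg.le_psi hε (q' := 0) (q := max q 2) (le_max_right _ _) (Nat.zero_le _)
      have hcpsi : c * Avg.psi ε q ≤ Avg.psi ε 0 := by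
        calc c * Avg.psi ε q ≤ 1 * Avg.psi ε 0 :=
              mul_le_mul hc1 hpsile hpsipos.le (by norm_num)
          _ = _ := one_mul _
      have hξR1 : |ξ| ≤ R1 := hξR.trans hRR1
      have hpq : |(p : ℝ) / q| ≤ R1 := by
        have h4 : |(p : ℝ) / q| ≤ |ξ| + |ξ - (p : ℝ) / q| := by
          have h5 := abs_sub_abs_le_abs_sub ((p : ℝ) / q) ξ
          rw [abs_sub_comm ((p : ℝ) / q) ξ] at h5
          linarith
        linarith
      have hqQ : q ≤ Q := by
        have h1 : (q : ℝ) * (Real.log 2) ^ (1 + ε) ≤ W := by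
          rw [hW]
          have h2 : (Real.log 2) ^ (1 + ε) ≤ (Real.log (q : ℝ)) ^ (1 + ε) :=
            Real.rpow_le_rpow hlog2.le (Real.log_le_log (by norm_num) hqR) (by linarith)
          have h3 : (q : ℝ) ≤ (q : ℝ) ^ 2 := by nlinarith
          gcongr
        have h4 : (q : ℝ) ≤ 24 * c * D0 * K * (H : ℝ) ^ (d + 1) / (Real.log 2) ^ (1 + ε) := by
          rw [le_div_iff₀ (by positivity)]
          exact h1.trans hqH
        exact Nat.cast_le.mp (h4.trans (Nat.le_ceil _))
      have hlbound : ∀ l : ℕ, 0 < l → l < Field.Kof (dq q) → (l : ℝ) * (24 * dq q) ≤ 1 := by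
        intro l hl0 hlK
        unfold Field.Kof at hlK
        have h1 : l < ⌊1 / (24 * dq q)⌋₊ := by
          rcases lt_max_iff.mp hlK with h | h
          · omega
          · exact h
        have h2 : (l : ℝ) ≤ 1 / (24 * dq q) := by
          have h3 : (l : ℝ) ≤ ((⌊1 / (24 * dq q)⌋₊ : ℕ) : ℝ) := by exact_mod_cast h1.le
          have := hdqpos q
          exact h3.trans (Nat.floor_le (by positivity))
        have := hdqpos q
        rwa [le_div_iff₀ (by positivity)] at h2
      have hval := Avg.abs_aeval_le hR1 hPd hPH hξR1 hpq hroot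
      have hvle : |aeval ((p : ℝ) / q) P| ≤ dq q := by
        refine hval.trans ?_
        simp only [hdq]
        rw [hD0def]
        gcongr
      rw [hF2, mem_biUnion]
      refine ⟨q, mem_Icc.mpr ⟨hq2, hqQ⟩, ?_⟩
      rw [mem_biUnion]
      refine ⟨p, ?_, ?_⟩
      · rw [hPS, mem_filter]
        refine ⟨?_, ?_⟩
        · have h1 : |(p : ℝ)| ≤ R1 * q := by
            have h7 : |(p : ℝ)| = |(p : ℝ) / q| * q := by
              rw [abs_div, abs_of_pos hqpos, div_mul_cancel₀ _ hqpos.ne']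
            rw [h7]
            exact mul_le_mul_of_nonneg_right hpq hqpos.le
          have h2 : (p.natAbs : ℝ) ≤ R1 * q := by
            rw [Nat.cast_natAbs, Int.cast_abs]; exact h1
          have h3 : p.natAbs ≤ ⌊R1 * q⌋₊ := Nat.le_floor h2
          rw [mem_Icc]
          omega
        · intro l hl0 hlK hne
          have hl := hlbound l hl0 hlK
          have hlB : l ≤ B := by
            rw [hBdef]
            apply Nat.le_floor
            simp only [hdq] at hl
            rw [hpsi] at hl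
            have h1 : (l : ℝ) * (24 * (c * (1 / W) * (H * D0))) = (l * (24 * c * H * D0)) / W := by
              field_simp
            rw [h1, div_le_one hWpos] at hl
            have h2 : (l : ℝ) * (24 * c * H * D0) ≤ (K * (H : ℝ) ^ d) * (24 * c * H * D0) := by
              calc (l : ℝ) * (24 * c * H * D0) ≤ W := hl
                _ ≤ 24 * c * D0 * K * (H : ℝ) ^ (d + 1) := hqH
                _ = _ := by ring
            exact le_of_mul_le_mul_right h2 (by positivity)
          refine hnear l hl0 hlB ?_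
          refine hP d l R1 (1 / (6 * d * H)) (1 / (3 * d * H)) ξ ((p : ℝ) / q) hR1 hξR1 hpq hne ?_
          have h1 : (l : ℝ) * (d * R1 ^ d * |ξ - (p : ℝ) / q|) ≤ 1 / (24 * ((d + 1) * H)) := by
            have h2 : (l : ℝ) * (d * R1 ^ d * |ξ - (p : ℝ) / q|)
                ≤ (l : ℝ) * (d * R1 ^ d * (c * Avg.psi ε q)) := by gcongr
            refine h2.trans ?_
            rw [le_div_iff₀ (by positivity)]
            calc (l : ℝ) * (d * R1 ^ d * (c * Avg.psi ε q)) * (24 * ((d + 1) * H))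
                = (l : ℝ) * (24 * dq q) := by simp only [hdq]; rw [hD0def]; ring
              _ ≤ 1 := hl
          have h3 : 1 / (24 * (((d : ℝ) + 1) * H)) ≤ 1 / (6 * d * H) := by
            apply one_div_le_one_div_of_le (by positivity)
            nlinarith [mul_pos hd0 hHpos]
          have h4 : (1 : ℝ) / (3 * d * H) = 1 / (6 * d * H) + 1 / (6 * d * H) := by
            field_simp; norm_num
          rw [h4]
          linarith
      · rw [mem_biUnion]
        refine ⟨fun i => P.coeff i, ?_, ?_⟩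
        · unfold smallVal
          rw [mem_filter]
          refine ⟨?_, ?_⟩
          · rw [Avg.mem_box]; intro i; exact hPH i
          · have h1 : ∑ i : Fin (d + 1), ((P.coeff (i : ℕ) : ℤ) : ℝ) * ((p : ℝ) / q) ^ (i : ℕ)
                = aeval ((p : ℝ) / q) P := by
              rw [aeval_eq_sum_range' (n := d + 1) (by omega),
                Fin.sum_univ_eq_sum_range
                  (fun i => ((P.coeff i : ℤ) : ℝ) * ((p : ℝ) / q) ^ i) (d + 1)]
              apply Finset.sum_congr rfl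
              intro i _
              rw [zsmul_eq_mul]
            rw [h1]
            exact hvle
        · rw [Multiset.mem_toFinset, Avg.polyR_coeffs hPd, mem_roots']
          refine ⟨?_, ?_⟩
          · rw [Ne, Polynomial.map_eq_zero_iff (algebraMap ℤ ℝ).injective_int]; exact hP0
          · rw [IsRoot, eval_map_algebraMap]; exact hroot

end Pool.Agent.Helper41.LF
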